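import Mathlib

namespace H13.TD

open Finset Classical

variable {V : Type} [Fintype V]

/-- The neighbours of `v` in the set `W`. -/
noncomputable def nb (G : SimpleGraph V) (W : Finset V) (v : V) : Finset V :=
  W.filter (fun u => G.Adj v u)

def Closed (G : SimpleGraph V) (W : Finset V) : Prop := ∀ v ∈ W, 2 ≤ (nb G W v).card

def Same (G : SimpleGraph V) (W : Finset V) (c : V → Bool) (v : V) : Prop :=
  ∃ u ∈ W, G.Adj v u ∧ c u = c v

def Opp (G : SimpleGraph V) (W : Finset V) (c : V → Bool) (v : V) : Prop :=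
  ∃ u ∈ W, G.Adj v u ∧ c u ≠ c v

def OKat (G : SimpleGraph V) (W : Finset V) (c : V → Bool) (I X : Finset V) (v : V) : Prop :=
  (v ∈ I ∨ Same G W c v) ∧ (v ∈ X ∨ Opp G W c v)

def Bd (k n : ℕ) : Prop := (∃ t : ℝ, 5 ≤ t ∧ (k : ℝ) + n / t + t ≤ n + 1) ∨ 5 * k ≤ 4 * n

def Sol (G : SimpleGraph V) (W : Finset V) : Prop :=
  ∃ (c : V → Bool) (I X : Finset V), (∀ v ∈ W, OKat G W c I X v) ∧
    Bd (2 * I.card + 4 * X.card) W.card

lemma mem_nb {G : SimpleGraph V} {W : Finset V} {u v : V} :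
    u ∈ nb G W v ↔ u ∈ W ∧ G.Adj v u := by simp [nb]

lemma nb_erase (G : SimpleGraph V) (W : Finset V) (v w : V) :
    nb G (W.erase v) w = (nb G W w).erase v := by
  ext x; simp only [nb, mem_filter, mem_erase]; tauto

lemma bd_step {k n δ w k' n' : ℕ} (h : Bd k n) (hw : 5 * δ ≤ 4 * w) (hk : k' ≤ k + δ)
    (hn : n' = n + w) : Bd k' n' := by
  rcases h with ⟨t, ht, h⟩ | h
  · refine Or.inl ⟨t, ht, ?_⟩
    subst hn
    have h1 : (w : ℝ) / t ≤ w / 5 := by
      apply div_le_div_of_nonneg_left (by positivity) (by norm_num) ht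
    have h2 : (5 : ℝ) * δ ≤ 4 * w := by exact_mod_cast hw
    have h3 : (k' : ℝ) ≤ k + δ := by exact_mod_cast hk
    push_cast
    rw [add_div]
    linarith
  · right; omega

lemma bd_zero : Bd 0 0 := Or.inr (by norm_num)

lemma bd_final {k n : ℕ} (h : Bd k n) :
    (k : ℝ) ≤ max ((n : ℝ) - 2 * Real.sqrt n + 1) (4 * n / 5) := by
  rcases h with ⟨t, ht, h⟩ | h
  · refine le_max_of_le_left ?_
    have hs : 0 ≤ Real.sqrt n := Real.sqrt_nonneg _
    have hn : Real.sqrt n * Real.sqrt n = n := Real.mul_self_sqrt (by positivity)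
    have ht0 : 0 < t := by linarith
    have h1 : 2 * Real.sqrt n ≤ n / t + t := by
      rw [← sub_nonneg]
      have : (n : ℝ) / t + t - 2 * Real.sqrt n = (Real.sqrt n - t) ^ 2 / t := by
        field_simp
        nlinarith
      rw [this]
      positivity
    linarith
  · refine le_max_of_le_right ?_
    have : (5 : ℝ) * k ≤ 4 * n := by exact_mod_cast h
    linarith

lemma ok_mono {G : SimpleGraph V} {W W' : Finset V} {c c' : V → Bool} {I I' X X' : Finset V} {v : V}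
    (h : OKat G W' c I X v) (hW : W' ⊆ W) (hv : v ∈ W') (hc : ∀ w ∈ W', c' w = c w)
    (hI : I ⊆ I') (hX : X ⊆ X') : OKat G W c' I' X' v := by
  obtain ⟨h1, h2⟩ := h
  constructor
  · rcases h1 with h1 | ⟨u, hu, ha, he⟩
    · exact Or.inl (hI h1)
    · exact Or.inr ⟨u, hW hu, ha, by rw [hc u hu, hc v hv, he]⟩
  · rcases h2 with h1 | ⟨u, hu, ha, he⟩
    · exact Or.inl (hX h1)
    · exact Or.inr ⟨u, hW hu, ha, by rw [hc u hu, hc v hv]; exact he⟩

lemma ok_graph {G G' : SimpleGraph V} {W : Finset V} {c : V → Bool} {I X : Finset V} {v : V}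
    (h : OKat G' W c I X v) (hG : G' ≤ G) : OKat G W c I X v := by
  obtain ⟨h1, h2⟩ := h
  constructor
  · rcases h1 with h1 | ⟨u, hu, ha, he⟩
    · exact Or.inl h1
    · exact Or.inr ⟨u, hu, hG ha, he⟩
  · rcases h2 with h1 | ⟨u, hu, ha, he⟩
    · exact Or.inl h1
    · exact Or.inr ⟨u, hu, hG ha, he⟩

/-- if `v` has two neighbours of different colours, everything is fine at `v` -/
lemma ok_two {G : SimpleGraph V} {W : Finset V} {c : V → Bool} {I X : Finset V} {v a b : V}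
    (ha : a ∈ W) (hb : b ∈ W) (hva : G.Adj v a) (hvb : G.Adj v b) (hab : c a ≠ c b) :
    OKat G W c I X v := by
  by_cases h : c a = c v
  · exact ⟨Or.inr ⟨a, ha, hva, h⟩, Or.inr ⟨b, hb, hvb, fun h' => hab (h.trans h'.symm)⟩⟩
  · have h' : c b = c v := by
      revert hab h
      cases c a <;> cases c b <;> cases c v <;> simp
    exact ⟨Or.inr ⟨b, hb, hvb, h'⟩, Or.inr ⟨a, ha, hva, h⟩⟩

lemma ok_I {G : SimpleGraph V} {W : Finset V} {c : V → Bool} {I X : Finset V} {v a : V}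
    (hv : v ∈ I) (ha : a ∈ W) (hva : G.Adj v a) (hab : c a ≠ c v) :
    OKat G W c I X v := ⟨Or.inl hv, Or.inr ⟨a, ha, hva, hab⟩⟩

lemma ok_X {G : SimpleGraph V} {W : Finset V} {c : V → Bool} {I X : Finset V} {v a : V}
    (hv : v ∈ X) (ha : a ∈ W) (hva : G.Adj v a) (hab : c a = c v) :
    OKat G W c I X v := ⟨Or.inr ⟨a, ha, hva, hab⟩, Or.inl hv⟩

/-- extension by a new vertex of a path: `v` is only adjacent to `u` in `W` -/
lemma tip_closed {G : SimpleGraph V} {W : Finset V} {v u : V}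
    (hv : nb G W v = {u}) (h : ∀ w ∈ W, w ≠ v → 2 ≤ (nb G W w).card) :
    ∀ w ∈ W.erase v, w ≠ u → 2 ≤ (nb G (W.erase v) w).card ∧ nb G (W.erase v) w = nb G W w := by
  intro w hw hwu
  have hw' := mem_erase.1 hw
  have : v ∉ nb G W w := by
    intro hvw
    have : w ∈ nb G W v := mem_nb.2 ⟨hw'.2, (mem_nb.1 hvw).2.symm⟩
    rw [hv, mem_singleton] at this
    exact hwu this
  rw [nb_erase, erase_eq_of_notMem this]
  exact ⟨h w hw'.2 hw'.1, rfl⟩

end H13.TD
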