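import Pool.Agent.H13.TD.Base

namespace H13.TD

open Finset Classical

variable {V : Type} [Fintype V]

lemma nb_erase_eq {G : SimpleGraph V} {W : Finset V} {v u w : V}
    (hv : nb G W v = {u}) (hw : w ∈ W.erase v) (hwu : w ≠ u) :
    nb G (W.erase v) w = nb G W w := by
  have hw' := mem_erase.1 hw
  have : v ∉ nb G W w := by
    intro hvw
    have : w ∈ nb G W v := mem_nb.2 ⟨hw'.2, (mem_nb.1 hvw).2.symm⟩
    rw [hv, mem_singleton] at this
    exact hwu this
  rw [nb_erase, erase_eq_of_notMem this]

lemma comp_nb {G : SimpleGraph V} {W S : Finset V} (hS : ∀ s ∈ S, nb G W s ⊆ S)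
    (hSW : S ⊆ W) : ∀ w ∈ W \ S, nb G (W \ S) w = nb G W w := by
  intro w hw
  have hw' := mem_sdiff.1 hw
  ext x
  simp only [nb, mem_filter, mem_sdiff]
  constructor
  · rintro ⟨⟨h1, h2⟩, h3⟩; exact ⟨h1, h3⟩
  · rintro ⟨h1, h3⟩
    refine ⟨⟨h1, fun hx => hw'.2 (hS x hx (mem_nb.2 ⟨hw'.1, h3.symm⟩))⟩, h3⟩

lemma twoTip (G : SimpleGraph V) (N : ℕ)
    (H : ∀ W' : Finset V, W'.card < N → Closed G W' → Sol G W') (Z : Finset V) :
    ∀ n : ℕ, ∀ W : Finset V, W.card = n → n ≤ N →
      (∀ w ∈ Z, (nb G W w).card ≤ 2) → (∀ w ∈ Z, ∀ z ∈ nb G W w, z ∈ Z) →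
      ∀ a v u : V, a ∈ W → v ∈ W → a ≠ v → v ∈ Z → nb G W v = {u} →
      (nb G W a).card = 1 →
      (∀ w ∈ W, w ≠ v → w ≠ a → 2 ≤ (nb G W w).card) →
      ∃ (c : V → Bool) (I X : Finset V),
        (∀ w ∈ W, w ≠ v → w ≠ a → OKat G W c I X w) ∧
        ∃ m, Bd (2 * I.card + 4 * X.card) m ∧ m + 2 ≤ W.card ∧
          (u ≠ a → m + 3 ≤ W.card) ∧ (u ≠ a → ¬ G.Adj u a → m + 4 ≤ W.card) := by
  intro n
  induction n using Nat.strong_induction_on with
  | _ n ih =>
  intro W hWn hnN hZ1 hZ2 a v u haW hvW hav hvZ hv ha hd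
  have huv : u ∈ nb G W v := by rw [hv]; simp
  have huW : u ∈ W := (mem_nb.1 huv).1
  have hadj : G.Adj v u := (mem_nb.1 huv).2
  have hne : u ≠ v := hadj.ne'
  have hcard : (W.erase v).card + 1 = W.card := card_erase_add_one hvW
  have huE : u ∈ W.erase v := mem_erase.2 ⟨hne, huW⟩
  have hvu : v ∈ nb G W u := mem_nb.2 ⟨hvW, hadj.symm⟩
  have huZ : u ∈ Z := hZ2 v hvZ u huv
  by_cases hua : u = a
  · subst hua
    have haV : nb G W u = {v} := by
      obtain ⟨z, hz⟩ := card_eq_one.1 ha
      rw [hz] at hvu ⊢
      rw [mem_singleton] at hvu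
      rw [hvu]
    have hS : ∀ s ∈ ({u, v} : Finset V), nb G W s ⊆ {u, v} := by
      intro s hs
      simp only [mem_insert, mem_singleton] at hs
      rcases hs with rfl | rfl
      · rw [haV]; simp
      · rw [hv]; simp
    have hSW : ({u, v} : Finset V) ⊆ W := by
      intro s hs
      simp only [mem_insert, mem_singleton] at hs
      rcases hs with rfl | rfl <;> assumption
    have hnb := comp_nb hS hSW
    have hc2 : (W \ {u, v}).card + 2 = W.card := by
      rw [card_sdiff_of_subset hSW, card_pair hne]
      have := card_le_card hSW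
      rw [card_pair hne] at this
      omega
    have hcl : Closed G (W \ {u, v}) := by
      intro w hw
      rw [hnb w hw]
      have hw' := mem_sdiff.1 hw
      simp only [mem_insert, mem_singleton, not_or] at hw'
      exact hd w hw'.1 hw'.2.2 hw'.2.1
    obtain ⟨c, I, X, hok, hb⟩ := H (W \ {u, v}) (by omega) hcl
    refine ⟨c, I, X, ?_, (W \ {u, v}).card, hb, by omega, fun h => absurd rfl h,
      fun h => absurd rfl h⟩
    intro w hw hwv hwu
    have hwS : w ∈ W \ {u, v} := by simp [hw, hwv, hwu]
    exact ok_mono (hok w hwS) sdiff_subset hwS (fun _ _ => rfl) (subset_refl _) (subset_refl _)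
  · have hu2 : (nb G W u).card = 2 := by
      have h1 := hZ1 u huZ
      have h2 := hd u huW hne hua
      omega
    have hucard : (nb G (W.erase v) u).card + 1 = (nb G W u).card := by
      rw [nb_erase]; exact card_erase_add_one hvu
    obtain ⟨u', hu'⟩ := card_eq_one.1 (show (nb G (W.erase v) u).card = 1 by omega)
    have hu'm : u' ∈ nb G (W.erase v) u := by rw [hu']; simp
    have hu'E := (mem_nb.1 hu'm).1
    have hu'v : u' ≠ v := (mem_erase.1 hu'E).1
    have hu'adj : G.Adj u u' := (mem_nb.1 hu'm).2
    have hsub : ∀ w, nb G (W.erase v) w ⊆ nb G W w := by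
      intro w; rw [nb_erase]; exact erase_subset _ _
    have haE : a ∈ W.erase v := mem_erase.2 ⟨hav, haW⟩
    obtain ⟨c, I, X, hok, m, hb, hm1, hm2, hm3⟩ := ih (W.erase v).card (by omega) (W.erase v) rfl
      (by omega) (fun w hw => (card_le_card (hsub w)).trans (hZ1 w hw))
      (fun w hw z hz => hZ2 w hw z (hsub w hz)) a u u' haE huE (fun h => hua h.symm) huZ hu'
      (by rw [nb_erase_eq hv haE (fun h => hua h.symm)]; exact ha)
      (by
        intro w hw hwu hwa
        rw [nb_erase_eq hv hw hwu]
        exact hd w (mem_erase.1 hw).2 (mem_erase.1 hw).1 hwa)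
    refine ⟨Function.update c v (!(c u')), I, X, ?_, m, hb, by omega, fun _ => by omega, ?_⟩
    · intro w hw hwv hwa
      have hwE : w ∈ W.erase v := mem_erase.2 ⟨hwv, hw⟩
      by_cases hwu : w = u
      · subst hwu
        refine ok_two (a := v) (b := u') hvW (mem_erase.1 hu'E).2 hadj.symm hu'adj ?_
        rw [Function.update_self, Function.update_of_ne hu'v]
        simp
      · refine ok_mono (hok w hwE hwu hwa) (erase_subset _ _) hwE ?_ (subset_refl _) (subset_refl _)
        intro x hx
        rw [Function.update_of_ne (mem_erase.1 hx).1]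
    · intro _ hna
      have : u' ≠ a := by rintro rfl; exact hna hu'adj
      have := hm2 this
      omega

/-- A component on three vertices or four vertices, or a longer cycle. -/
lemma closeTwo (G : SimpleGraph V) (W : Finset V)
    (H : ∀ W' : Finset V, W'.card < W.card → Closed G W' → Sol G W')
    (hW : Closed G W) (Z : Finset V) (hZ1 : ∀ w ∈ Z, (nb G W w).card ≤ 2)
    (hZ2 : ∀ w ∈ Z, ∀ z ∈ nb G W w, z ∈ Z) {p : V} (hp : p ∈ W) (hpZ : p ∈ Z) : Sol G W := by
  have two : ∀ w ∈ W, w ∈ Z → (nb G W w).card = 2 := fun w hw hz => le_antisymm (hZ1 w hz) (hW w hw)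
  obtain ⟨x, q, hxq, hpn⟩ := card_eq_two.1 (two p hp hpZ)
  have hqm : q ∈ nb G W p := by rw [hpn]; simp
  have hxm : x ∈ nb G W p := by rw [hpn]; simp
  have hqW := (mem_nb.1 hqm).1
  have hxW := (mem_nb.1 hxm).1
  have hpq : G.Adj p q := (mem_nb.1 hqm).2
  have hpx : G.Adj p x := (mem_nb.1 hxm).2
  have hqZ := hZ2 p hpZ q hqm
  have hxZ := hZ2 p hpZ x hxm
  have hpmq : p ∈ nb G W q := mem_nb.2 ⟨hp, hpq.symm⟩
  have hpmx : p ∈ nb G W x := mem_nb.2 ⟨hp, hpx.symm⟩
  have hq2 := two q hqW hqZ
  have hx2 := two x hxW hxZ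
  have hq1 : (nb G (W.erase p) q).card = 1 := by
    rw [nb_erase]; have := card_erase_add_one hpmq; omega
  have hx1 : (nb G (W.erase p) x).card = 1 := by
    rw [nb_erase]; have := card_erase_add_one hpmx; omega
  obtain ⟨y, hy⟩ := card_eq_one.1 hq1
  obtain ⟨x', hx'⟩ := card_eq_one.1 hx1
  have hym : y ∈ nb G (W.erase p) q := by rw [hy]; simp
  have hx'm : x' ∈ nb G (W.erase p) x := by rw [hx']; simp
  have hyW : y ∈ W := (mem_erase.1 (mem_nb.1 hym).1).2
  have hyp : y ≠ p := (mem_erase.1 (mem_nb.1 hym).1).1
  have hqy : G.Adj q y := (mem_nb.1 hym).2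
  have hx'W : x' ∈ W := (mem_erase.1 (mem_nb.1 hx'm).1).2
  have hx'p : x' ≠ p := (mem_erase.1 (mem_nb.1 hx'm).1).1
  have hxx' : G.Adj x x' := (mem_nb.1 hx'm).2
  have hqn : nb G W q = {p, y} := by
    rw [nb_erase] at hy
    rw [← insert_erase hpmq, hy]
  have hxn : nb G W x = {p, x'} := by
    rw [nb_erase] at hx'
    rw [← insert_erase hpmx, hx']
  have hxp : x ≠ p := hpx.ne'
  have hqp : q ≠ p := hpq.ne'
  by_cases hA : y = x
  · -- triangle
    subst hA
    have hx'q : x' = q := by
      have : q ∈ nb G W y := mem_nb.2 ⟨hqW, hqy.symm⟩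
      rw [hxn] at this
      simp only [mem_insert, mem_singleton] at this
      rcases this with h | h
      · exact absurd h hqp
      · exact h.symm
    rw [hx'q] at hxn
    have hS : ∀ s ∈ ({p, q, y} : Finset V), nb G W s ⊆ {p, q, y} := by
      intro s hs
      simp only [mem_insert, mem_singleton] at hs
      rcases hs with rfl | rfl | rfl
      · rw [hpn]; intro z hz; simp only [mem_insert, mem_singleton] at hz ⊢; tauto
      · rw [hqn]; intro z hz; simp only [mem_insert, mem_singleton] at hz ⊢; tauto
      · rw [hxn]; intro z hz; simp only [mem_insert, mem_singleton] at hz ⊢; tauto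
    have hSW : ({p, q, y} : Finset V) ⊆ W := by
      intro s hs
      simp only [mem_insert, mem_singleton] at hs
      rcases hs with rfl | rfl | rfl <;> assumption
    have hnb := comp_nb hS hSW
    have hS3 : ({p, q, y} : Finset V).card = 3 := by
      rw [card_eq_three]; exact ⟨p, q, y, hqp.symm, hxp.symm, hxq.symm, rfl⟩
    have hc3 : (W \ {p, q, y}).card + 3 = W.card := by
      have h1 := card_sdiff_add_card_eq_card hSW
      omega
    have hcl : Closed G (W \ {p, q, y}) := by
      intro w hw
      rw [hnb w hw]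
      exact hW w (mem_sdiff.1 hw).1
    obtain ⟨c, I, X, hok, hb⟩ := H (W \ {p, q, y}) (by omega) hcl
    refine ⟨fun z => if z = p then true else if z = q then true else if z = y then false else c z,
      insert y I, X, ?_, ?_⟩
    · intro w hw
      by_cases hwS : w ∈ ({p, q, y} : Finset V)
      · simp only [mem_insert, mem_singleton] at hwS
        rcases hwS with rfl | rfl | rfl
        · exact ok_two (a := q) (b := y) hqW hxW hpq hpx (by simp [hqp, hxp, hxq])
        · exact ok_two (a := p) (b := y) hp hxW hpq.symm hqy (by simp [hxp, hxq])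
        · exact ok_I (a := p) (mem_insert_self _ _) hp hpx.symm (by simp [hxp, hxq])
      · have hwD : w ∈ W \ {p, q, y} := mem_sdiff.2 ⟨hw, hwS⟩
        refine ok_mono (hok w hwD) sdiff_subset hwD ?_ (subset_insert _ _) (subset_refl _)
        intro z hz
        have hz' := (mem_sdiff.1 hz).2
        simp only [mem_insert, mem_singleton, not_or] at hz'
        simp [hz'.1, hz'.2.1, hz'.2.2]
    · have hcI : (insert y I).card ≤ I.card + 1 := card_insert_le _ _
      exact bd_step (δ := 2) (w := 3) hb (by omega) (by omega) (by omega)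
  by_cases hB : G.Adj y x
  · -- 4-cycle
    have hyZ : y ∈ Z := hZ2 q hqZ y (by rw [hqn]; simp)
    have hyn : nb G W y = {q, x} := by
      symm
      apply eq_of_subset_of_card_le
      · intro z hz
        simp only [mem_insert, mem_singleton] at hz
        rcases hz with rfl | rfl
        · exact mem_nb.2 ⟨hqW, hqy.symm⟩
        · exact mem_nb.2 ⟨hxW, hB⟩
      · rw [card_pair hxq.symm]; exact hZ1 y hyZ
    have hx'y : x' = y := by
      have : y ∈ nb G W x := mem_nb.2 ⟨hyW, hB.symm⟩
      rw [hxn] at this
      simp only [mem_insert, mem_singleton] at this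
      rcases this with h | h
      · exact absurd h hyp
      · exact h.symm
    rw [hx'y] at hxn
    have hqy' : q ≠ y := hqy.ne
    have hS : ∀ s ∈ ({p, q, y, x} : Finset V), nb G W s ⊆ {p, q, y, x} := by
      intro s hs
      simp only [mem_insert, mem_singleton] at hs
      rcases hs with rfl | rfl | rfl | rfl
      · rw [hpn]; intro z hz; simp only [mem_insert, mem_singleton] at hz ⊢; tauto
      · rw [hqn]; intro z hz; simp only [mem_insert, mem_singleton] at hz ⊢; tauto
      · rw [hyn]; intro z hz; simp only [mem_insert, mem_singleton] at hz ⊢; tauto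
      · rw [hxn]; intro z hz; simp only [mem_insert, mem_singleton] at hz ⊢; tauto
    have hSW : ({p, q, y, x} : Finset V) ⊆ W := by
      intro s hs
      simp only [mem_insert, mem_singleton] at hs
      rcases hs with rfl | rfl | rfl | rfl <;> assumption
    have hnb := comp_nb hS hSW
    have hc4 : (W \ {p, q, y, x}).card < W.card := by
      apply card_lt_card
      refine ⟨sdiff_subset, fun h => ?_⟩
      have := h hp
      simp at this
    have hcl : Closed G (W \ {p, q, y, x}) := by
      intro w hw
      rw [hnb w hw]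
      exact hW w (mem_sdiff.1 hw).1
    obtain ⟨c, I, X, hok, hb⟩ := H (W \ {p, q, y, x}) (by omega) hcl
    refine ⟨fun z => if z = p then true else if z = q then true else if z = x then false else
      if z = y then false else c z, I, X, ?_, ?_⟩
    · intro w hw
      by_cases hwS : w ∈ ({p, q, y, x} : Finset V)
      · simp only [mem_insert, mem_singleton] at hwS
        rcases hwS with rfl | rfl | rfl | rfl
        · exact ok_two (a := q) (b := x) hqW hxW hpq hpx (by simp [hqp, hxp, hxq])
        · exact ok_two (a := p) (b := y) hp hyW hpq.symm hqy (by simp [hyp, hqy'.symm])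
        · exact ok_two (a := q) (b := x) hqW hxW hqy.symm hB (by simp [hxp, hxq])
        · exact ok_two (a := p) (b := y) hp hyW hpx.symm hB.symm (by simp [hyp, hqy'.symm])
      · have hwD : w ∈ W \ {p, q, y, x} := mem_sdiff.2 ⟨hw, hwS⟩
        refine ok_mono (hok w hwD) sdiff_subset hwD ?_ (subset_refl _) (subset_refl _)
        intro z hz
        have hz' := (mem_sdiff.1 hz).2
        simp only [mem_insert, mem_singleton, not_or] at hz'
        simp [hz'.1, hz'.2.1, hz'.2.2.1, hz'.2.2.2]
    · exact bd_step (δ := 0) (w := W.card - (W \ {p, q, y, x}).card) hb (by omega) (by omega)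
        (by omega)
  -- a longer cycle
  have hcard : (W.erase p).card + 1 = W.card := card_erase_add_one hp
  have hqE : q ∈ W.erase p := mem_erase.2 ⟨hqp, hqW⟩
  have hxE : x ∈ W.erase p := mem_erase.2 ⟨hxp, hxW⟩
  have hsub : ∀ w, nb G (W.erase p) w ⊆ nb G W w := by
    intro w; rw [nb_erase]; exact erase_subset _ _
  obtain ⟨c, I, X, hok, m, hb, -, -, hm⟩ := twoTip G W.card H Z (W.erase p).card (W.erase p) rfl
    (by omega) (fun w hw => (card_le_card (hsub w)).trans (hZ1 w hw))
    (fun w hw z hz => hZ2 w hw z (hsub w hz)) x q y hxE hqE hxq hqZ hy hx1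
    (by
      intro w hw hwq hwx
      have : p ∉ nb G W w := by
        intro h
        have : w ∈ nb G W p := mem_nb.2 ⟨(mem_erase.1 hw).2, (mem_nb.1 h).2.symm⟩
        rw [hpn] at this
        simp at this
        tauto
      rw [nb_erase, erase_eq_of_notMem this]
      exact hW w (mem_erase.1 hw).2)
  have hm' := hm hA hB
  have key : ∀ (P : Bool) (I' X' : Finset V), I ⊆ I' → X ⊆ X' →
      ∀ w ∈ W, w ≠ p → w ≠ q → w ≠ x → OKat G W (Function.update c p P) I' X' w := by
    intro P I' X' hI hX w hw hwp hwq hwx
    have hwE : w ∈ W.erase p := mem_erase.2 ⟨hwp, hw⟩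
    refine ok_mono (hok w hwE hwq hwx) (erase_subset _ _) hwE ?_ hI hX
    intro z hz
    rw [Function.update_of_ne (mem_erase.1 hz).1]
  have fin : ∀ (P : Bool) (I' X' : Finset V), I ⊆ I' → X ⊆ X' →
      2 * I'.card + 4 * X'.card ≤ 2 * I.card + 4 * X.card + 4 →
      OKat G W (Function.update c p P) I' X' p → OKat G W (Function.update c p P) I' X' q →
      OKat G W (Function.update c p P) I' X' x → Sol G W := by
    intro P I' X' hI hX hc h1 h2 h3
    refine ⟨Function.update c p P, I', X', ?_,
      bd_step (δ := 4) (w := W.card - m) hb (by omega) hc (by omega)⟩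
    intro w hw
    by_cases hwp : w = p
    · rw [hwp]; exact h1
    by_cases hwq : w = q
    · rw [hwq]; exact h2
    by_cases hwx : w = x
    · rw [hwx]; exact h3
    exact key P I' X' hI hX w hw hwp hwq hwx
  have ev : ∀ (P : Bool) (z : V), z ≠ p → Function.update c p P z = c z :=
    fun P z hz => Function.update_of_ne hz _ _
  have ep : ∀ P : Bool, Function.update c p P p = P := fun P => Function.update_self _ _ _
  have cI : ∀ z : V, ∀ J : Finset V, (insert z J).card ≤ J.card + 1 := fun z J => card_insert_le _ _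
  have qok : ∀ I' X' : Finset V, OKat G W (Function.update c p (!(c y))) I' X' q := by
    intro I' X'
    refine ok_two (a := p) (b := y) hp hyW hpq.symm hqy ?_
    rw [ep, ev _ y hyp]; simp
  by_cases h1 : c q = c x
  · by_cases h2 : c x' = !(c y)
    · by_cases h3 : (!(c y)) = c x
      · -- flip
        refine fin (c y) (insert p (insert q I)) X
          ((subset_insert _ _).trans (subset_insert _ _)) (subset_refl _)
          (by have := cI p (insert q I); have := cI q I; omega) ?_ ?_ ?_
        · refine ok_I (a := x) (mem_insert_self _ _) hxW hpx ?_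
          rw [ep, ev _ x hxp, ← h3]; simp
        · refine ok_I (a := p) (mem_insert_of_mem (mem_insert_self _ _)) hp hpq.symm ?_
          rw [ep, ev _ q hqp, h1, ← h3]; simp
        · refine ok_two (a := x') (b := p) hx'W hp hxx' hpx.symm ?_
          rw [ep, ev _ x' hx'p, h2]; simp
      · refine fin (!(c y)) (insert p (insert x I)) X
          ((subset_insert _ _).trans (subset_insert _ _)) (subset_refl _)
          (by have := cI p (insert x I); have := cI x I; omega) ?_ (qok _ _) ?_
        · refine ok_I (a := x) (mem_insert_self _ _) hxW hpx ?_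
          rw [ep, ev _ x hxp]; exact fun h => h3 h.symm
        · refine ok_I (a := p) (mem_insert_of_mem (mem_insert_self _ _)) hp hpx.symm ?_
          rw [ep, ev _ x hxp]; exact h3
    · have xok : ∀ I' X' : Finset V, OKat G W (Function.update c p (!(c y))) I' X' x := by
        intro I' X'
        refine ok_two (a := x') (b := p) hx'W hp hxx' hpx.symm ?_
        rw [ep, ev _ x' hx'p]; exact h2
      by_cases h3 : (!(c y)) = c x
      · refine fin (!(c y)) I (insert p X) (subset_refl _) (subset_insert _ _)
          (by have := cI p X; omega) ?_ (qok _ _) (xok _ _)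
        refine ok_X (a := x) (mem_insert_self _ _) hxW hpx ?_
        rw [ep, ev _ x hxp]; exact h3.symm
      · refine fin (!(c y)) (insert p I) X (subset_insert _ _) (subset_refl _)
          (by have := cI p I; omega) ?_ (qok _ _) (xok _ _)
        refine ok_I (a := x) (mem_insert_self _ _) hxW hpx ?_
        rw [ep, ev _ x hxp]; exact fun h => h3 h.symm
  · have pok : ∀ I' X' : Finset V, OKat G W (Function.update c p (!(c y))) I' X' p := by
      intro I' X'
      refine ok_two (a := q) (b := x) hqW hxW hpq hpx ?_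
      rw [ev _ q hqp, ev _ x hxp]; exact h1
    by_cases h2 : c x' = !(c y)
    · by_cases h3 : (!(c y)) = c x
      · refine fin (!(c y)) I (insert x X) (subset_refl _) (subset_insert _ _)
          (by have := cI x X; omega) (pok _ _) (qok _ _) ?_
        refine ok_X (a := p) (mem_insert_self _ _) hp hpx.symm ?_
        rw [ep, ev _ x hxp]; exact h3
      · refine fin (!(c y)) (insert x I) X (subset_insert _ _) (subset_refl _)
          (by have := cI x I; omega) (pok _ _) (qok _ _) ?_
        refine ok_I (a := p) (mem_insert_self _ _) hp hpx.symm ?_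
        rw [ep, ev _ x hxp]; exact h3
    · refine fin (!(c y)) I X (subset_refl _) (subset_refl _) (by omega) (pok _ _) (qok _ _) ?_
      refine ok_two (a := x') (b := p) hx'W hp hxx' hpx.symm ?_
      rw [ep, ev _ x' hx'p]; exact h2

end H13.TD
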