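import Pool.Agent.H13.TD.Tip
import Pool.Agent.H13.TD.Cyc

namespace H13.TD

open Finset Classical

variable {V : Type} [Fintype V]

lemma sol_graph {G G' : SimpleGraph V} {W : Finset V} (h : Sol G' W) (hG : G' ≤ G) : Sol G W := by
  obtain ⟨c, I, X, hok, hb⟩ := h
  exact ⟨c, I, X, fun v hv => ok_graph (hok v hv) hG, hb⟩

theorem main_of_bip
    (bip : ∀ (G : SimpleGraph V) (W : Finset V), W.Nonempty → Closed G W →
      (∀ p ∈ W, (nb G W p).card = 2 → ∀ q ∈ nb G W p, 3 ≤ (nb G W q).card) →
      (∀ p ∈ W, 3 ≤ (nb G W p).card → ∀ q ∈ nb G W p, (nb G W q).card = 2) → Sol G W) :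
    ∀ n : ℕ, ∀ W : Finset V, W.card = n → ∀ G : SimpleGraph V, Closed G W → Sol G W := by
  intro n
  induction n using Nat.strong_induction_on with
  | _ n ih =>
  intro W hWn G hG
  by_cases hne : W.Nonempty
  swap
  · rw [not_nonempty_iff_eq_empty] at hne
    subst hne
    exact ⟨fun _ => true, ∅, ∅, by simp, by simpa using bd_zero⟩
  obtain ⟨G', hmin⟩ := exists_minimal_of_wellFoundedLT
    (fun G' : SimpleGraph V => G' ≤ G ∧ Closed G' W) ⟨G, le_refl _, hG⟩
  obtain ⟨⟨hle, hW⟩, hmin⟩ := hmin
  refine sol_graph ?_ hle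
  have H : ∀ W' : Finset V, W'.card < W.card → Closed G' W' → Sol G' W' :=
    fun W' hW' hc => ih W'.card (by omega) W' rfl G' hc
  have edge : ∀ a ∈ W, ∀ b ∈ nb G' W a, (nb G' W a).card = 2 ∨ (nb G' W b).card = 2 := by
    intro a ha b hb
    by_contra hcon
    push_neg at hcon
    have hbW := (mem_nb.1 hb).1
    have hab := (mem_nb.1 hb).2
    have ha3 : 3 ≤ (nb G' W a).card := by have := hW a ha; omega
    have hb3 : 3 ≤ (nb G' W b).card := by have := hW b hbW; omega
    have hP : (G'.deleteEdges {s(a, b)}) ≤ G ∧ Closed (G'.deleteEdges {s(a, b)}) W := by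
      refine ⟨(SimpleGraph.deleteEdges_le _).trans hle, ?_⟩
      intro w hw
      by_cases hwa : w = a
      · subst hwa
        have hsub : (nb G' W w).erase b ⊆ nb (G'.deleteEdges {s(w, b)}) W w := by
          intro z hz
          have hz1 := mem_erase.1 hz
          have hz2 := mem_nb.1 hz1.2
          refine mem_nb.2 ⟨hz2.1, ?_⟩
          rw [SimpleGraph.deleteEdges_adj]
          refine ⟨hz2.2, ?_⟩
          simp only [Set.mem_singleton_iff, Sym2.eq_iff]
          rintro (⟨-, h⟩ | ⟨h1, h2⟩)
          · exact hz1.1 h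
          · exact hz1.1 (h2.trans h1)
        have h1 := card_le_card hsub
        have h2 := card_erase_add_one hb
        omega
      · by_cases hwb : w = b
        · subst hwb
          have hba : a ∈ nb G' W w := mem_nb.2 ⟨ha, hab.symm⟩
          have hsub : (nb G' W w).erase a ⊆ nb (G'.deleteEdges {s(a, w)}) W w := by
            intro z hz
            have hz1 := mem_erase.1 hz
            have hz2 := mem_nb.1 hz1.2
            refine mem_nb.2 ⟨hz2.1, ?_⟩
            rw [SimpleGraph.deleteEdges_adj]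
            refine ⟨hz2.2, ?_⟩
            simp only [Set.mem_singleton_iff, Sym2.eq_iff]
            rintro (⟨h, -⟩ | ⟨h1, h2⟩)
            · exact hwa h
            · exact hz1.1 h2
          have h1 := card_le_card hsub
          have h2 := card_erase_add_one hba
          omega
        · have hsub : nb G' W w ⊆ nb (G'.deleteEdges {s(a, b)}) W w := by
            intro z hz
            have hz2 := mem_nb.1 hz
            refine mem_nb.2 ⟨hz2.1, ?_⟩
            rw [SimpleGraph.deleteEdges_adj]
            refine ⟨hz2.2, ?_⟩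
            simp only [Set.mem_singleton_iff, Sym2.eq_iff]
            rintro (⟨h, -⟩ | ⟨h, -⟩)
            · exact hwa h
            · exact hwb h
          exact (hW w hw).trans (card_le_card hsub)
    have h1 : G' ≤ G'.deleteEdges {s(a, b)} := hmin hP (SimpleGraph.deleteEdges_le _)
    have h2 := h1 hab
    rw [SimpleGraph.deleteEdges_adj] at h2
    exact h2.2 rfl
  by_cases hA1 : ∃ p ∈ W, (nb G' W p).card = 2 ∧ ∃ q ∈ nb G' W p, (nb G' W q).card = 2 ∧
      ∃ x ∈ nb G' W p, 3 ≤ (nb G' W x).card
  · obtain ⟨p, hp, hp2, q, hq, hq2, x, hx, hx3⟩ := hA1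
    have hxq : x ≠ q := by rintro rfl; omega
    refine closeOne G' W H hW hp ?_ hxq hq2 hx3
    symm
    apply eq_of_subset_of_card_le
    · intro z hz
      simp only [mem_insert, mem_singleton] at hz
      rcases hz with rfl | rfl <;> assumption
    · rw [card_pair hxq]; omega
  by_cases hA2 : ∃ p ∈ W, (nb G' W p).card = 2 ∧ ∃ q ∈ nb G' W p, (nb G' W q).card = 2
  · obtain ⟨p, hp, hp2, q, hq, hq2⟩ := hA2
    refine closeTwo G' W H hW
      (W.filter (fun w => (nb G' W w).card = 2 ∧ ∃ z ∈ nb G' W w, (nb G' W z).card = 2))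
      ?_ ?_ hp ?_
    · intro w hw
      exact (mem_filter.1 hw).2.1.le
    · intro w hw z hz
      have hw' := mem_filter.1 hw
      obtain ⟨hwW, hw2, z', hz', hz'2⟩ := hw'
      have hzW := (mem_nb.1 hz).1
      have hz2 : (nb G' W z).card = 2 := by
        by_contra hcon
        have := hW z hzW
        exact hA1 ⟨w, hwW, hw2, z', hz', hz'2, z, hz, by omega⟩
      exact mem_filter.2 ⟨hzW, hz2, w, mem_nb.2 ⟨hwW, (mem_nb.1 hz).2.symm⟩, hw2⟩
    · exact mem_filter.2 ⟨hp, hp2, q, hq, hq2⟩
  · refine bip G' W hne hW ?_ ?_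
    · intro p hp hp2 q hq
      by_contra hcon
      have := hW q (mem_nb.1 hq).1
      exact hA2 ⟨p, hp, hp2, q, hq, by omega⟩
    · intro p hp hp3 q hq
      rcases edge p hp q hq with h | h
      · omega
      · exact h

end H13.TD
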