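import Pool.Agent.H13.TD.Ind
import Pool.Agent.H9.TD.Bip

namespace H13.TD

open Finset Classical

variable {V : Type} [Fintype V]

theorem main_sol (G : SimpleGraph V) (hd : ∀ v, 2 ≤ (G.neighborSet v).ncard) :
    Sol G univ := by
  refine main_of_bip (fun G W hne hW h2 h3 => Pool.Agent.H9.TD.bip G W hne hW h2 h3)
    _ univ rfl G ?_
  intro v _
  refine (hd v).trans ?_
  rw [← Set.ncard_coe_finset]
  apply Set.ncard_le_ncard
  · intro w hw
    simpa [nb] using hw
  · exact Set.toFinite _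

/-- The colouring with its numbers, without auxiliary definitions. -/
theorem main_colour (G : SimpleGraph V) (hd : ∀ v, 2 ≤ (G.neighborSet v).ncard) :
    ∃ (c : V → Bool) (I X : Finset V),
      (∀ v, v ∈ I ∨ ∃ w, G.Adj v w ∧ c w = c v) ∧ (∀ v, v ∈ X ∨ ∃ w, G.Adj v w ∧ c w ≠ c v) ∧
      ((2 * I.card + 4 * X.card : ℕ) : ℝ) ≤
        max ((Fintype.card V : ℝ) - 2 * Real.sqrt (Fintype.card V) + 1)
          (4 * (Fintype.card V : ℝ) / 5) := by
  obtain ⟨c, I, X, hok, hb⟩ := main_sol G hd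
  refine ⟨c, I, X, ?_, ?_, ?_⟩
  · intro v
    rcases (hok v (mem_univ _)).1 with h | ⟨u, -, h1, h2⟩
    · exact Or.inl h
    · exact Or.inr ⟨u, h1, h2⟩
  · intro v
    rcases (hok v (mem_univ _)).2 with h | ⟨u, -, h1, h2⟩
    · exact Or.inl h
    · exact Or.inr ⟨u, h1, h2⟩
  · have := bd_final hb
    rw [card_univ] at this
    exact this

end H13.TD
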