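import Pool.Agent.H13.TD.Base

namespace H13.TD

open Finset Classical

variable {V : Type} [Fintype V]

/-- One tip: `v` has the only neighbour `u` in `W`, all other vertices have at least two. -/
lemma oneTip (G : SimpleGraph V) (N : ℕ)
    (H : ∀ W' : Finset V, W'.card < N → Closed G W' → Sol G W') :
    ∀ n : ℕ, ∀ W : Finset V, W.card = n → n ≤ N → ∀ v u : V, v ∈ W → nb G W v = {u} →
      (∀ w ∈ W, w ≠ v → 2 ≤ (nb G W w).card) →
      ∃ (c0 c1 : V → Bool) (I X : Finset V),
        (∀ w ∈ W, w ≠ v → OKat G W c0 I X w ∧ OKat G W c1 I X w) ∧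
        (((∀ w, w ≠ v → c0 w = c1 w) ∧ c0 v ≠ c1 v ∧
            ∃ m, m + 1 = W.card ∧ Bd (2 * I.card + 4 * X.card) m) ∨
          (((c0 v ≠ c1 v ∧ c0 u = c1 u) ∨ (c0 v = c1 v ∧ c0 u ≠ c1 u)) ∧
            ∃ m, m + 2 = W.card ∧ Bd (2 * I.card + 4 * X.card) m)) := by
  intro n
  induction n using Nat.strong_induction_on with
  | _ n ih =>
  intro W hWn hnN v u hvW hv hd
  have huv : u ∈ nb G W v := by rw [hv]; simp
  have huW : u ∈ W := (mem_nb.1 huv).1
  have hadj : G.Adj v u := (mem_nb.1 huv).2
  have hne : u ≠ v := hadj.ne'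
  have htc := tip_closed hv hd
  have hcard : (W.erase v).card + 1 = W.card := card_erase_add_one hvW
  have huE : u ∈ W.erase v := mem_erase.2 ⟨hne, huW⟩
  have hvu : v ∈ nb G W u := mem_nb.2 ⟨hvW, hadj.symm⟩
  have hucard : (nb G (W.erase v) u).card + 1 = (nb G W u).card := by
    rw [nb_erase]; exact card_erase_add_one hvu
  have hu2 := hd u huW hne
  by_cases h3 : 3 ≤ (nb G W u).card
  · -- the rest is closed
    have hcl : Closed G (W.erase v) := by
      intro w hw
      by_cases hwu : w = u
      · subst hwu; omega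
      · exact (htc w hw hwu).1
    obtain ⟨c, I, X, hok, hb⟩ := H (W.erase v) (by omega) hcl
    refine ⟨Function.update c v true, Function.update c v false, I, X, ?_, Or.inl ⟨?_, ?_, ?_⟩⟩
    · intro w hw hwv
      have hwE : w ∈ W.erase v := mem_erase.2 ⟨hwv, hw⟩
      constructor
      · refine ok_mono (hok w hwE) (erase_subset _ _) hwE ?_ (subset_refl _) (subset_refl _)
        intro x hx
        rw [Function.update_of_ne (mem_erase.1 hx).1]
      · refine ok_mono (hok w hwE) (erase_subset _ _) hwE ?_ (subset_refl _) (subset_refl _)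
        intro x hx
        rw [Function.update_of_ne (mem_erase.1 hx).1]
    · intro w hw
      rw [Function.update_of_ne hw, Function.update_of_ne hw]
    · simp
    · exact ⟨(W.erase v).card, hcard, hb⟩
  · have hu1 : (nb G (W.erase v) u).card = 1 := by omega
    obtain ⟨u', hu'⟩ := card_eq_one.1 hu1
    have hu'm : u' ∈ nb G (W.erase v) u := by rw [hu']; simp
    have hu'E := (mem_nb.1 hu'm).1
    have hu'v : u' ≠ v := (mem_erase.1 hu'E).1
    have hu'adj : G.Adj u u' := (mem_nb.1 hu'm).2
    have hu'u : u' ≠ u := hu'adj.ne'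
    obtain ⟨c0, c1, I, X, hok, hh⟩ := ih (W.erase v).card (by omega) (W.erase v) rfl (by omega)
      u u' huE hu' (fun w hw hwu => (htc w hw hwu).1)
    have key : ∀ c : V → Bool, (∀ w ∈ W.erase v, w ≠ u → OKat G (W.erase v) c I X w) →
        ∀ w ∈ W, w ≠ v → OKat G W (Function.update c v (!(c u'))) I X w := by
      intro c hc w hw hwv
      have hwE : w ∈ W.erase v := mem_erase.2 ⟨hwv, hw⟩
      by_cases hwu : w = u
      · subst hwu
        refine ok_two (a := v) (b := u') hvW (mem_erase.1 hu'E).2 hadj.symm hu'adj ?_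
        rw [Function.update_self, Function.update_of_ne hu'v]
        simp
      · refine ok_mono (hc w hwE hwu) (erase_subset _ _) hwE ?_ (subset_refl _) (subset_refl _)
        intro x hx
        rw [Function.update_of_ne (mem_erase.1 hx).1]
    refine ⟨Function.update c0 v (!(c0 u')), Function.update c1 v (!(c1 u')), I, X, ?_,
      Or.inr ⟨?_, ?_⟩⟩
    · intro w hw hwv
      exact ⟨key c0 (fun w hw hwu => (hok w hw hwu).1) w hw hwv,
        key c1 (fun w hw hwu => (hok w hw hwu).2) w hw hwv⟩
    · rw [Function.update_self, Function.update_self, Function.update_of_ne hne,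
        Function.update_of_ne hne]
      rcases hh with ⟨h1, h2, -⟩ | ⟨h1 | h1, -⟩
      · right
        rw [h1 u' hu'u]
        exact ⟨rfl, h2⟩
      · right
        rw [h1.2]
        exact ⟨rfl, h1.1⟩
      · left
        refine ⟨?_, h1.1⟩
        intro h
        apply h1.2
        revert h
        cases c0 u' <;> cases c1 u' <;> simp
    · rcases hh with ⟨-, -, m, hm, hb⟩ | ⟨-, m, hm, hb⟩
      · exact ⟨m, by omega, hb⟩
      · exact ⟨m + 1, by omega, bd_step (δ := 0) (w := 1) hb (by omega) (by omega) rfl⟩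

/-- Closing a path at a vertex with at least three neighbours. -/
lemma closeOne (G : SimpleGraph V) (W : Finset V)
    (H : ∀ W' : Finset V, W'.card < W.card → Closed G W' → Sol G W')
    (hW : Closed G W) {p q x : V} (hp : p ∈ W) (hpn : nb G W p = {x, q}) (hxq : x ≠ q)
    (hq : (nb G W q).card = 2) (hx : 3 ≤ (nb G W x).card) : Sol G W := by
  have hqm : q ∈ nb G W p := by rw [hpn]; simp
  have hxm : x ∈ nb G W p := by rw [hpn]; simp
  have hqW := (mem_nb.1 hqm).1
  have hxW := (mem_nb.1 hxm).1
  have hpq : G.Adj p q := (mem_nb.1 hqm).2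
  have hpx : G.Adj p x := (mem_nb.1 hxm).2
  have hpmq : p ∈ nb G W q := mem_nb.2 ⟨hp, hpq.symm⟩
  have hpmx : p ∈ nb G W x := mem_nb.2 ⟨hp, hpx.symm⟩
  have h1 : (nb G (W.erase p) q).card = 1 := by
    rw [nb_erase]; have := card_erase_add_one hpmq; omega
  obtain ⟨y, hy⟩ := card_eq_one.1 h1
  have hym : y ∈ nb G (W.erase p) q := by rw [hy]; simp
  have hyE := (mem_nb.1 hym).1
  have hyp : y ≠ p := (mem_erase.1 hyE).1
  have hyW : y ∈ W := (mem_erase.1 hyE).2
  have hqy : G.Adj q y := (mem_nb.1 hym).2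
  have hqE : q ∈ W.erase p := mem_erase.2 ⟨hpq.ne', hqW⟩
  have hcard : (W.erase p).card + 1 = W.card := card_erase_add_one hp
  have hd : ∀ w ∈ W.erase p, w ≠ q → 2 ≤ (nb G (W.erase p) w).card := by
    intro w hw hwq
    rw [nb_erase]
    by_cases hwx : w = x
    · subst hwx; have := card_erase_add_one hpmx; omega
    · have : p ∉ nb G W w := by
        intro h
        have : w ∈ nb G W p := mem_nb.2 ⟨(mem_erase.1 hw).2, (mem_nb.1 h).2.symm⟩
        rw [hpn] at this
        simp at this
        tauto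
      rw [erase_eq_of_notMem this]
      exact hW w (mem_erase.1 hw).2
  obtain ⟨c0, c1, I, X, hok, hh⟩ := oneTip G W.card H (W.erase p).card (W.erase p) rfl (by omega)
    q y hqE hy hd
  -- extension of a colouring
  have key : ∀ (c : V → Bool) (I' : Finset V), I ⊆ I' →
      (∀ w ∈ W.erase p, w ≠ q → OKat G (W.erase p) c I X w) →
      ∀ w ∈ W, w ≠ p → OKat G W (Function.update c p (!(c y))) I' X w := by
    intro c I' hI hc w hw hwp
    have hwE : w ∈ W.erase p := mem_erase.2 ⟨hwp, hw⟩
    by_cases hwq : w = q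
    · subst hwq
      refine ok_two (a := p) (b := y) hp hyW hpq.symm hqy ?_
      rw [Function.update_self, Function.update_of_ne hyp]
      simp
    · refine ok_mono (hc w hwE hwq) (erase_subset _ _) hwE ?_ hI (subset_refl _)
      intro z hz
      rw [Function.update_of_ne (mem_erase.1 hz).1]
  have hxp : x ≠ p := hpx.ne'
  have hqp : q ≠ p := hpq.ne'
  have good : ∀ c : V → Bool, (∀ w ∈ W.erase p, w ≠ q → OKat G (W.erase p) c I X w) →
      c q ≠ c x → ∀ w ∈ W, OKat G W (Function.update c p (!(c y))) I X w := by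
    intro c hc hne w hw
    by_cases hwp : w = p
    · subst hwp
      refine ok_two (a := q) (b := x) hqW hxW hpq hpx ?_
      rw [Function.update_of_ne hqp, Function.update_of_ne hxp]
      exact hne
    · exact key c I (subset_refl _) hc w hw hwp
  have hok0 : ∀ w ∈ W.erase p, w ≠ q → OKat G (W.erase p) c0 I X w :=
    fun w hw hwq => (hok w hw hwq).1
  have hok1 : ∀ w ∈ W.erase p, w ≠ q → OKat G (W.erase p) c1 I X w :=
    fun w hw hwq => (hok w hw hwq).2
  rcases hh with ⟨ha, hb, m, hm, hbd⟩ | ⟨hdich, m, hm, hbd⟩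
  · have hbd' : Bd (2 * I.card + 4 * X.card) W.card :=
      bd_step (δ := 0) (w := 2) hbd (by omega) (by omega) (by omega)
    have hxx := ha x hxq
    by_cases h0 : c0 q = c0 x
    · refine ⟨_, I, X, good c1 hok1 ?_, hbd'⟩
      rw [← hxx, ← h0]; exact fun h => hb h.symm
    · exact ⟨_, I, X, good c0 hok0 h0, hbd'⟩
  · have hbd' : Bd (2 * I.card + 4 * X.card) W.card :=
      bd_step (δ := 0) (w := 3) hbd (by omega) (by omega) (by omega)
    by_cases h0 : c0 q = c0 x
    swap
    · exact ⟨_, I, X, good c0 hok0 h0, hbd'⟩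
    by_cases h1 : c1 q = c1 x
    swap
    · exact ⟨_, I, X, good c1 hok1 h1, hbd'⟩
    have hcI : (insert p I).card ≤ I.card + 1 := card_insert_le _ _
    have hbd'' : Bd (2 * (insert p I).card + 4 * X.card) W.card :=
      bd_step (δ := 2) (w := 3) hbd (by omega) (by omega) (by omega)
    have bad : ∀ c : V → Bool, (∀ w ∈ W.erase p, w ≠ q → OKat G (W.erase p) c I X w) →
        c q = c x → c y = c q →
        ∀ w ∈ W, OKat G W (Function.update c p (!(c y))) (insert p I) X w := by
      intro c hc hqx hyq w hw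
      by_cases hwp : w = p
      · subst hwp
        refine ok_I (a := q) (mem_insert_self _ _) hqW hpq ?_
        rw [Function.update_of_ne hqp, Function.update_self, hyq]
        simp
      · exact key c _ (subset_insert _ _) hc w hw hwp
    by_cases h2 : c0 y = c0 q
    · exact ⟨_, _, X, bad c0 hok0 h0 h2, hbd''⟩
    · refine ⟨_, _, X, bad c1 hok1 h1 ?_, hbd''⟩
      revert h2 hdich
      cases c0 y <;> cases c0 q <;> cases c1 y <;> cases c1 q <;> simp

end H13.TD
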